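import Pool.Agent.H65.CRZ.TN
import Pool.Agent.H37.CV.All

/-!
# Row SD of the board `crz_modules`: Selberg's quadratic form with shifts
-/

set_option autoImplicit false

open NumberField NumberField.InfinitePlace Complex Filter Topology MeasureTheory

namespace Pool.Agent.H11.CRZ

open Pool.Agent.H65.CRZ Pool.Agent.H28.RC Pool.Agent.H96.CV
open Pool.Agent.H37.CV hiding two_le_np fS_pos
open Pool.Agent.H25.HK hiding T_GA FF

section
variable {K : Type} [Field K] [NumberField K]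

theorem sum_sg (s : PrI K → ℝ) (hs : ∀ P, 0 ≤ s P) (M : ℝ) :
    ∑ D ∈ DM K M, (fS np D)⁻¹ * ∑ P ∈ D, s P ≤
      (∑ P ∈ PM K M, s P / (np P - 1)) * GS np (PM K M) M := by
  classical
  have h1 : ∀ D ∈ DM K M, (fS np D)⁻¹ * ∑ P ∈ D, s P =
      ∑ P ∈ PM K M, if P ∈ D then (fS np D)⁻¹ * s P else 0 := by
    intro D hD
    rw [Finset.mul_sum, ← Finset.sum_filter]
    have h2 : (PM K M).filter (fun P => P ∈ D) = D := by
      ext P
      rw [Finset.mem_filter]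
      exact ⟨fun h => h.2, fun h => ⟨(mem_DM.1 hD).1 h, h⟩⟩
    rw [h2]
  rw [Finset.sum_congr rfl h1, Finset.sum_comm, Finset.sum_mul]
  refine Finset.sum_le_sum fun P _ => ?_
  rw [← Finset.sum_filter]
  have h2 : ∑ D ∈ (DM K M).filter (fun D => P ∈ D), (fS np D)⁻¹ * s P =
      s P / (np P - 1) * ∑ D ∈ (DM K M).filter (fun D => P ∈ D), (fS np (D.erase P))⁻¹ := by
    rw [Finset.mul_sum]
    refine Finset.sum_congr rfl fun D hD => ?_
    have h3 := (Finset.mem_filter.1 hD).2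
    have h4 : fS np D = (np P - 1) * fS np (D.erase P) := by
      unfold fS
      exact (Finset.mul_prod_erase D (fun P => np P - 1) h3).symm
    rw [h4, mul_inv]
    ring
  rw [h2]
  refine mul_le_mul_of_nonneg_left ?_ (div_nonneg (hs P) (by linarith [two_le_np P]))
  have h5 : ∑ D ∈ (DM K M).filter (fun D => P ∈ D), (fS np (D.erase P))⁻¹ =
      ∑ T ∈ ((DM K M).filter (fun D => P ∈ D)).image (fun D => D.erase P), (fS np T)⁻¹ := by
    rw [Finset.sum_image]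
    intro D hD D' hD' h
    have h6 := (Finset.mem_filter.1 hD).2
    have h7 := (Finset.mem_filter.1 hD').2
    have h8 : D.erase P = D'.erase P := h
    rw [← Finset.insert_erase h6, ← Finset.insert_erase h7, h8]
  rw [h5]
  refine Finset.sum_le_sum_of_subset_of_nonneg ?_ fun T _ _ => (inv_pos.2 (fS_pos T)).le
  intro T hT
  obtain ⟨D, hD, rfl⟩ := Finset.mem_image.1 hT
  obtain ⟨h6, h7⟩ := Finset.mem_filter.1 hD
  obtain ⟨h8, h9⟩ := mem_DM.1 h6
  refine mem_DM.2 ⟨(Finset.erase_subset _ _).trans h8, le_trans ?_ h9⟩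
  have h10 : nS np D = np P * nS np (D.erase P) := by
    unfold nS
    exact (Finset.mul_prod_erase D np h7).symm
  rw [h10]
  have h11 := nS_pos (D.erase P)
  nlinarith [two_le_np P]

/-- the terms of the sum over the primes -/
noncomputable def sg (D : Finset (PrI K)) : ℝ := ∑ P ∈ D, Real.log (np P) / (np P - 1)

theorem sg_nonneg (D : Finset (PrI K)) : 0 ≤ sg D :=
  Finset.sum_nonneg fun P _ => div_nonneg (Real.log_nonneg (by linarith [two_le_np P]))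
    (by linarith [two_le_np P])

theorem hw_bound (c M : ℝ) (ω : ℂ) (D : Finset (PrI K)) (hM : 0 < Real.log M)
    (hω : ‖ω‖ ≤ c / Real.log M) (hD : nS np D ≤ M) :
    ‖hw np ω D - 1‖ ≤ (Real.exp c * Real.exp (c * Real.exp c)) * (‖ω‖ * sg D) := by
  have hM0 : 0 < M := lt_of_lt_of_le (nS_pos D) hD
  have hlog : ∑ P ∈ D, Real.log (np P) ≤ Real.log M := by
    rw [← Real.log_prod fun P _ => (np_pos P).ne']
    exact Real.log_le_log (nS_pos D) hD
  have hl0 : ∀ P : PrI K, 0 ≤ Real.log (np P) := fun P =>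
    Real.log_nonneg (by linarith [two_le_np P])
  have hωc : ‖ω‖ * Real.log M ≤ c := by
    rw [le_div_iff₀ hM] at hω
    exact hω
  -- one factor
  have h1 : ∀ P ∈ D, ‖(1 - ((np P : ℝ) : ℂ) ^ (-ω)) / ((np P - 1 : ℝ) : ℂ)‖ ≤
      Real.exp c * ‖ω‖ * (Real.log (np P) / (np P - 1)) := by
    intro P hP
    have h2 := two_le_np P
    have h3 : ((np P : ℝ) : ℂ) ≠ 0 := by exact_mod_cast (np_pos P).ne'
    rw [norm_div, Complex.norm_real, Real.norm_of_nonneg (by linarith), mul_div_assoc',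
      div_le_div_iff_of_pos_right (by linarith), Complex.cpow_def_of_ne_zero h3,
      ← Complex.ofReal_log (np_pos P).le]
    have h4 := Complex.norm_exp_sub_sum_le_norm_mul_exp
      (((Real.log (np P) : ℝ) : ℂ) * -ω) 1
    simp only [Finset.range_one, Finset.sum_singleton, pow_zero, Nat.factorial_zero,
      Nat.cast_one, div_one, pow_one] at h4
    rw [norm_sub_rev]
    refine h4.trans ?_
    have h5 : ‖((Real.log (np P) : ℝ) : ℂ) * -ω‖ = ‖ω‖ * Real.log (np P) := by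
      rw [norm_mul, norm_neg, Complex.norm_real, Real.norm_of_nonneg (hl0 P), mul_comm]
    rw [h5]
    have h6 : ‖ω‖ * Real.log (np P) ≤ c := by
      refine le_trans (mul_le_mul_of_nonneg_left ?_ (norm_nonneg _)) hωc
      exact (Finset.single_le_sum (fun P _ => hl0 P) hP).trans hlog
    have h7 : Real.exp (‖ω‖ * Real.log (np P)) ≤ Real.exp c := Real.exp_le_exp.2 h6
    have h8 : 0 ≤ ‖ω‖ * Real.log (np P) := mul_nonneg (norm_nonneg _) (hl0 P)
    calc ‖ω‖ * Real.log (np P) * Real.exp (‖ω‖ * Real.log (np P)) ≤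
        ‖ω‖ * Real.log (np P) * Real.exp c := mul_le_mul_of_nonneg_left h7 h8
      _ = _ := by ring
  have h2 : hw np ω D = ∏ P ∈ D, (1 + (1 - ((np P : ℝ) : ℂ) ^ (-ω)) / ((np P - 1 : ℝ) : ℂ)) := by
    unfold hw
    refine Finset.prod_congr rfl fun P _ => ?_
    have h3 : ((np P - 1 : ℝ) : ℂ) ≠ 0 := by
      have := two_le_np P
      exact_mod_cast (show np P - 1 ≠ 0 by intro h; linarith)
    field_simp
    push_cast
    ring
  obtain ⟨x, hx⟩ : ∃ x, x = ∑ P ∈ D, ‖(1 - ((np P : ℝ) : ℂ) ^ (-ω)) / ((np P - 1 : ℝ) : ℂ)‖ :=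
    ⟨_, rfl⟩
  have hx1 : x ≤ Real.exp c * (‖ω‖ * sg D) := by
    rw [hx, sg, Finset.mul_sum, Finset.mul_sum]
    refine Finset.sum_le_sum fun P hP => (h1 P hP).trans (le_of_eq (by ring))
  have hx0 : 0 ≤ x := by
    rw [hx]
    exact Finset.sum_nonneg fun P _ => norm_nonneg _
  have hsg : sg D ≤ Real.log M := by
    refine le_trans (Finset.sum_le_sum fun P _ => ?_) hlog
    have := two_le_np P
    exact div_le_self (hl0 P) (by linarith)
  have hx2 : x ≤ c * Real.exp c := by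
    refine hx1.trans ?_
    rw [mul_comm c]
    refine mul_le_mul_of_nonneg_left ?_ (Real.exp_pos _).le
    exact (mul_le_mul_of_nonneg_left hsg (norm_nonneg _)).trans hωc
  rw [h2]
  have h3 := Finset.norm_prod_one_add_sub_one_le D
    (fun P => (1 - ((np P : ℝ) : ℂ) ^ (-ω)) / ((np P - 1 : ℝ) : ℂ))
  rw [← hx] at h3
  refine h3.trans ?_
  have h4 : Real.exp x - 1 ≤ x * Real.exp x := by
    have h5 := Real.add_one_le_exp (-x)
    have h6 : Real.exp (-x) * Real.exp x = 1 := by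
      rw [← Real.exp_add]
      simp
    nlinarith [Real.exp_pos x]
  refine h4.trans ?_
  have h7 : Real.exp x ≤ Real.exp (c * Real.exp c) := Real.exp_le_exp.2 hx2
  calc x * Real.exp x ≤ (Real.exp c * (‖ω‖ * sg D)) * Real.exp (c * Real.exp c) :=
        mul_le_mul hx1 h7 (Real.exp_pos _).le
          (mul_nonneg (Real.exp_pos _).le (mul_nonneg (norm_nonneg _) (sg_nonneg D)))
    _ = _ := by ring

end

theorem fin_est (ρ l G η₃ A E : ℝ) (F R : ℂ) (hρ : 0 < ρ) (hl : 0 < l)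
    (hG : |G - ρ * l| ≤ η₃ * l) (hη₃ : η₃ ≤ ρ / 2) (hF : ‖F‖ ≤ A * l) (hR : ‖R‖ ≤ E) :
    ‖((ρ * l ^ 2 : ℝ) : ℂ) * ((((G)⁻¹ ^ 2 : ℝ) : ℂ) * ((ρ : ℂ) * F + R)) - F‖ ≤
      6 * η₃ / ρ * (A * l) + 4 / ρ * E := by
  obtain ⟨h1, h2⟩ := abs_le.1 hG
  have hη0 : 0 ≤ η₃ := by
    have := (abs_nonneg _).trans hG
    exact nonneg_of_mul_nonneg_left this hl
  have hGl : ρ * l / 2 ≤ G := by nlinarith
  have hG0 : 0 < G := lt_of_lt_of_le (by positivity) hGl
  have hGc : (G : ℂ) ≠ 0 := by exact_mod_cast hG0.ne'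
  have e : ((ρ * l ^ 2 : ℝ) : ℂ) * ((((G)⁻¹ ^ 2 : ℝ) : ℂ) * ((ρ : ℂ) * F + R)) - F =
      F * (((ρ * l - G) * (ρ * l + G) / G ^ 2 : ℝ) : ℂ) + ((ρ * l ^ 2 / G ^ 2 : ℝ) : ℂ) * R := by
    push_cast
    field_simp
    ring
  rw [e]
  refine (norm_add_le _ _).trans (add_le_add ?_ ?_)
  · rw [norm_mul, Complex.norm_real, Real.norm_eq_abs, abs_div, abs_mul,
      abs_of_pos (show 0 < G ^ 2 by positivity), abs_of_pos (show 0 < ρ * l + G by positivity),
      abs_sub_comm]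
    have h3 : |G - ρ * l| * (ρ * l + G) / G ^ 2 ≤ 6 * η₃ / ρ := by
      rw [div_le_div_iff₀ (by positivity) hρ]
      have h4 : |G - ρ * l| * (ρ * l + G) ≤ η₃ * l * (3 * G) :=
        mul_le_mul hG (by linarith) (by positivity) (by positivity)
      have h5 : η₃ * l * (3 * G) * ρ ≤ 6 * η₃ * G ^ 2 := by
        have h6 : ρ * l ≤ 2 * G := by linarith
        have h7 : 0 ≤ 3 * η₃ * G := by positivity
        nlinarith [mul_le_mul_of_nonneg_left h6 h7]
      nlinarith [mul_le_mul_of_nonneg_right h4 hρ.le]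
    calc ‖F‖ * (|G - ρ * l| * (ρ * l + G) / G ^ 2) ≤ A * l * (6 * η₃ / ρ) :=
          mul_le_mul hF h3 (by positivity) ((norm_nonneg _).trans hF)
      _ = _ := by ring
  · rw [norm_mul, Complex.norm_real, Real.norm_of_nonneg (by positivity)]
    refine mul_le_mul ?_ hR (norm_nonneg _) (by positivity)
    rw [div_le_div_iff₀ (by positivity) hρ]
    have h6 : (ρ * l) ^ 2 ≤ (2 * G) ^ 2 := pow_le_pow_left₀ (by positivity) (by linarith) 2
    nlinarith

theorem pf_SD (h1 : T_S2) (h2 : T_EA) (h3 : T_EB) (h4 : T_MO) (h5 : T_GA) : T_SD := by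
  classical
  intro K _ _ C₀ η hC₀ hη
  have hρ : 0 < rho K := dedekindZeta_residue_pos K
  obtain ⟨Ce, hCe, hEB⟩ := h3 K C₀ hC₀
  obtain ⟨ch, hch⟩ : ∃ ch, ch = Real.exp (2 * C₀) * Real.exp (2 * C₀ * Real.exp (2 * C₀)) :=
    ⟨_, rfl⟩
  have hch0 : 0 < ch := by rw [hch]; positivity
  obtain ⟨Cg, -, -, hCg⟩ := a_GU K
  have hCg0 : 0 ≤ Cg := by simpa using hCg ∅
  obtain ⟨A₁, hA₁⟩ : ∃ A₁, A₁ = 2 * C₀ * ch * Ce ^ 2 + C₀ * Ce ^ 2 + (1 + C₀) * (Ce * C₀) :=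
    ⟨_, rfl⟩
  obtain ⟨A₂, hA₂⟩ : ∃ A₂, A₂ = Ce + (1 + C₀) := ⟨_, rfl⟩
  have hA₁0 : 0 < A₁ := by rw [hA₁]; positivity
  have hA₂0 : 0 < A₂ := by rw [hA₂]; positivity
  obtain ⟨M₁, hM₁, hEA⟩ := h2 K C₀ (η / (32 * A₂)) hC₀ (by positivity)
  obtain ⟨M₂, hM₂, hMO⟩ := h4 K (rho K * η / (16 * (1 + C₀) ^ 2)) (by positivity)
  obtain ⟨η₃, hη₃⟩ : ∃ η₃, η₃ = min (rho K / 2) (rho K * η / (24 * (1 + C₀) ^ 2)) := ⟨_, rfl⟩
  have hη₃0 : 0 < η₃ := by
    rw [hη₃]
    exact lt_min (by positivity) (by positivity)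
  obtain ⟨M₃, hM₃, hGA⟩ := h5 K η₃ hη₃0
  refine ⟨max (max M₁ M₂) (max M₃ (Real.exp (32 * A₁ * Cg / η))),
    le_trans hM₁ (le_trans (le_max_left _ _) (le_max_left _ _)), ?_⟩
  intro M α β hM hα hβ
  have hMM1 : M₁ ≤ M := (le_trans (le_max_left _ _) (le_max_left _ _)).trans hM
  have hMM2 : M₂ ≤ M := (le_trans (le_max_right _ _) (le_max_left _ _)).trans hM
  have hMM3 : M₃ ≤ M := (le_trans (le_max_left _ _) (le_max_right _ _)).trans hM
  have hMM4 : Real.exp (32 * A₁ * Cg / η) ≤ M :=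
    (le_trans (le_max_right _ _) (le_max_right _ _)).trans hM
  have hM2 : 2 ≤ M := hM₁.trans hMM1
  have hM1 : 1 ≤ M := by linarith
  have hM0 : 0 < M := by linarith
  obtain ⟨l, hl⟩ : ∃ l, l = Real.log M := ⟨_, rfl⟩
  have hl0 : 0 < l := by rw [hl]; exact Real.log_pos (by linarith)
  have hlbig : 32 * A₁ * Cg / η ≤ l := by
    rw [hl, Real.le_log_iff_exp_le hM0]
    exact hMM4
  have hG := hGA M M hMM3 hM1 le_rfl
  obtain ⟨G, hGdef⟩ : ∃ G, G = GS np (PM K M) M := ⟨_, rfl⟩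
  rw [← hGdef, ← hl] at hG
  have hη₃' : η₃ ≤ rho K / 2 := by rw [hη₃]; exact min_le_left _ _
  have hG2 : G ≤ 2 * rho K * l := by
    have := (abs_le.1 hG).2
    nlinarith
  have hG0 : 0 ≤ G := by rw [hGdef]; exact GS_nonneg _ _
  have hα' := hα
  have hβ' := hβ
  rw [← hl] at hα' hβ'
  have hω : ‖α + β‖ ≤ 2 * C₀ / Real.log M := by
    refine (norm_add_le _ _).trans ?_
    calc ‖α‖ + ‖β‖ ≤ C₀ / Real.log M + C₀ / Real.log M := add_le_add hα hβ
      _ = _ := by ring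
  -- the logarithms
  obtain ⟨lam, hlam⟩ : ∃ lam : Finset (PrI K) → ℝ, lam = fun D => Real.log (M / nS np D) :=
    ⟨_, rfl⟩
  have hx : ∀ D ∈ DM K M, 1 ≤ M / nS np D ∧ M / nS np D ≤ M ∧ 0 ≤ lam D ∧ lam D ≤ l := by
    intro D hD
    have h6 := (mem_DM.1 hD).2
    have h7 : 1 ≤ M / nS np D := (one_le_div (nS_pos D)).2 h6
    have h8 : M / nS np D ≤ M := div_le_self hM0.le (one_le_nS D)
    refine ⟨h7, h8, ?_, ?_⟩
    · rw [hlam]
      exact Real.log_nonneg h7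
    · rw [hlam, hl]
      exact Real.log_le_log (by linarith) h8
  have hmb : ∀ z : ℂ, ‖z‖ ≤ C₀ / l → ∀ D ∈ DM K M, ‖1 + z * (lam D : ℂ)‖ ≤ 1 + C₀ := by
    intro z hz D hD
    obtain ⟨-, -, h6, h7⟩ := hx D hD
    refine (norm_add_le _ _).trans ?_
    rw [norm_one, norm_mul, Complex.norm_real, Real.norm_of_nonneg h6]
    have h8 : ‖z‖ * lam D ≤ C₀ / l * l := mul_le_mul hz h7 h6 (by positivity)
    rw [div_mul_cancel₀ _ hl0.ne'] at h8
    linarith
  -- the values of `Eb`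
  have hE : ∀ z : ℂ, ‖z‖ ≤ C₀ / Real.log M → ∀ D ∈ DM K M,
      ‖Eb np (PM K M) D (M / nS np D) z‖ ≤ Ce ∧
      ‖Eb np (PM K M) D (M / nS np D) z - (1 + z * (lam D : ℂ))‖ ≤
        Ce * (C₀ / l) * sg D + η / (32 * A₂) := by
    intro z hz D hD
    obtain ⟨h6, h7, -, -⟩ := hx D hD
    obtain ⟨h8, -⟩ := hEB M z hM2 hz (M / nS np D) (M / nS np D) h7 le_rfl
    obtain ⟨h9, h10⟩ := h8 D
    refine ⟨h9, ?_⟩
    have h11 := hEA M z hMM1 hz (M / nS np D) h6 h7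
    have h12 : (lam D : ℂ) = ((Real.log (M / nS np D) : ℝ) : ℂ) := by rw [hlam]
    rw [h12]
    have e : Eb np (PM K M) D (M / nS np D) z - (1 + z * ((Real.log (M / nS np D) : ℝ) : ℂ)) =
        (Eb np (PM K M) D (M / nS np D) z - Eb np (PM K M) ∅ (M / nS np D) z) +
        (Eb np (PM K M) ∅ (M / nS np D) z - (1 + z * ((Real.log (M / nS np D) : ℝ) : ℂ))) := by
      ring
    rw [e]
    refine (norm_add_le _ _).trans (add_le_add (h10.trans ?_) h11)
    rw [hl]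
    exact mul_le_mul_of_nonneg_right (mul_le_mul_of_nonneg_left hz (by linarith)) (sg_nonneg D)
  -- one term
  have hT : ∀ D ∈ DM K M, ‖hw np (α + β) D * (Eb np (PM K M) D (M / nS np D) α *
      Eb np (PM K M) D (M / nS np D) β) - (1 + α * (lam D : ℂ)) * (1 + β * (lam D : ℂ))‖ ≤
        A₁ / l * sg D + η / 32 := by
    intro D hD
    obtain ⟨a1, a2⟩ := hE α hα D hD
    obtain ⟨b1, b2⟩ := hE β hβ D hD
    have m1 := hmb α hα' D hD
    have hw1 := hw_bound (2 * C₀) M (α + β) D (by rw [← hl]; exact hl0) hω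
      (mem_DM.1 hD).2
    rw [← hch] at hw1
    have hs := sg_nonneg D
    have hw2 : ‖hw np (α + β) D - 1‖ ≤ ch * (2 * C₀ / l * sg D) := by
      refine hw1.trans (mul_le_mul_of_nonneg_left ?_ hch0.le)
      rw [← hl] at hω
      exact mul_le_mul_of_nonneg_right hω hs
    obtain ⟨Ea, hEa⟩ : ∃ Ea, Ea = Eb np (PM K M) D (M / nS np D) α := ⟨_, rfl⟩
    obtain ⟨Ebb, hEbb⟩ : ∃ Ebb, Ebb = Eb np (PM K M) D (M / nS np D) β := ⟨_, rfl⟩
    obtain ⟨H, hH⟩ : ∃ H, H = hw np (α + β) D := ⟨_, rfl⟩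
    obtain ⟨ma, hma⟩ : ∃ ma, ma = 1 + α * (lam D : ℂ) := ⟨_, rfl⟩
    obtain ⟨mb, hmb'⟩ : ∃ mb, mb = 1 + β * (lam D : ℂ) := ⟨_, rfl⟩
    rw [← hEa, ← hma] at a2
    rw [← hEa] at a1
    rw [← hEbb, ← hmb'] at b2
    rw [← hEbb] at b1
    rw [← hma] at m1
    rw [← hH] at hw2
    rw [← hEa, ← hEbb, ← hH, ← hma, ← hmb']
    have e : H * (Ea * Ebb) - ma * mb = (H - 1) * (Ea * Ebb) + (Ea - ma) * Ebb +
        ma * (Ebb - mb) := by ring
    rw [e]
    have n1 : ‖(H - 1) * (Ea * Ebb)‖ ≤ ch * (2 * C₀ / l * sg D) * (Ce * Ce) := by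
      rw [norm_mul, norm_mul]
      exact mul_le_mul hw2 (mul_le_mul a1 b1 (norm_nonneg _) (by linarith)) (by positivity)
        (by positivity)
    have n2 : ‖(Ea - ma) * Ebb‖ ≤ (Ce * (C₀ / l) * sg D + η / (32 * A₂)) * Ce := by
      rw [norm_mul]
      exact mul_le_mul a2 b1 (norm_nonneg _) (by positivity)
    have n3 : ‖ma * (Ebb - mb)‖ ≤ (1 + C₀) * (Ce * (C₀ / l) * sg D + η / (32 * A₂)) := by
      rw [norm_mul]
      exact mul_le_mul m1 b2 (norm_nonneg _) (by positivity)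
    refine (norm_add_le _ _).trans (le_trans (add_le_add (norm_add_le _ _) le_rfl) ?_)
    refine (add_le_add (add_le_add n1 n2) n3).trans (le_of_eq ?_)
    rw [hA₁]
    have hη32 : η / (32 * A₂) * (Ce + (1 + C₀)) = η / 32 := by
      rw [← hA₂]
      field_simp
    linear_combination hη32
  -- the sum
  obtain ⟨R₁, hR₁⟩ : ∃ R₁ : ℂ, R₁ = ∑ D ∈ DM K M, (((fS np D)⁻¹ : ℝ) : ℂ) *
      (hw np (α + β) D * (Eb np (PM K M) D (M / nS np D) α *
      Eb np (PM K M) D (M / nS np D) β) - (1 + α * (lam D : ℂ)) * (1 + β * (lam D : ℂ))) :=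
    ⟨_, rfl⟩
  have hR₁b : ‖R₁‖ ≤ 2 * rho K * A₁ * Cg + rho K * η / 16 * l := by
    rw [hR₁]
    refine (norm_sum_le _ _).trans ?_
    have h6 : ∀ D ∈ DM K M, ‖(((fS np D)⁻¹ : ℝ) : ℂ) *
      (hw np (α + β) D * (Eb np (PM K M) D (M / nS np D) α *
      Eb np (PM K M) D (M / nS np D) β) - (1 + α * (lam D : ℂ)) * (1 + β * (lam D : ℂ)))‖ ≤
        A₁ / l * ((fS np D)⁻¹ * sg D) + η / 32 * (fS np D)⁻¹ := by
      intro D hD
      have h7 := (inv_pos.2 (fS_pos D)).le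
      rw [norm_mul, Complex.norm_real, Real.norm_of_nonneg h7]
      refine (mul_le_mul_of_nonneg_left (hT D hD) h7).trans (le_of_eq (by ring))
    refine (Finset.sum_le_sum h6).trans ?_
    rw [Finset.sum_add_distrib, ← Finset.mul_sum, ← Finset.mul_sum]
    have h7 : ∑ D ∈ DM K M, (fS np D)⁻¹ = G := by rw [hGdef]; rfl
    rw [h7]
    have h8 : ∑ D ∈ DM K M, (fS np D)⁻¹ * sg D ≤ Cg * G := by
      refine (sum_sg (fun P => Real.log (np P) / (np P - 1)) (fun P => div_nonneg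
        (Real.log_nonneg (by linarith [two_le_np P])) (by linarith [two_le_np P])) M).trans ?_
      rw [← hGdef]
      refine mul_le_mul_of_nonneg_right ?_ hG0
      refine le_trans (le_of_eq (Finset.sum_congr rfl fun P _ => ?_)) (hCg (PM K M))
      rw [div_div, pow_two]
    have h9 : A₁ / l * ∑ D ∈ DM K M, (fS np D)⁻¹ * sg D ≤ 2 * rho K * A₁ * Cg := by
      calc A₁ / l * ∑ D ∈ DM K M, (fS np D)⁻¹ * sg D ≤ A₁ / l * (Cg * (2 * rho K * l)) := by
            refine mul_le_mul_of_nonneg_left (h8.trans ?_) (by positivity)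
            exact mul_le_mul_of_nonneg_left hG2 hCg0
        _ = _ := by field_simp
    have h10 : η / 32 * G ≤ rho K * η / 16 * l := by
      calc η / 32 * G ≤ η / 32 * (2 * rho K * l) :=
            mul_le_mul_of_nonneg_left hG2 (by positivity)
        _ = _ := by ring
    linarith
  -- the moments
  obtain ⟨η₂, hη₂⟩ : ∃ η₂, η₂ = rho K * η / (16 * (1 + C₀) ^ 2) := ⟨_, rfl⟩
  have hη₂0 : 0 < η₂ := by rw [hη₂]; positivity
  obtain ⟨S, hS⟩ : ∃ S : ℕ → ℝ, S = fun k => ∑ D ∈ DM K M, lam D ^ k / fS np D := ⟨_, rfl⟩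
  have hSk : ∀ k : ℕ, k ≤ 2 → ‖((S k : ℝ) : ℂ) - ((rho K * l ^ (k + 1) / (k + 1) : ℝ) : ℂ)‖ ≤
      η₂ * l ^ (k + 1) := by
    intro k hk
    rw [← Complex.ofReal_sub, Complex.norm_real, Real.norm_eq_abs, hS, hlam, hη₂, hl]
    exact hMO M k hMM2 hk
  have hmain : ∑ D ∈ DM K M, (((fS np D)⁻¹ : ℝ) : ℂ) *
      ((1 + α * (lam D : ℂ)) * (1 + β * (lam D : ℂ))) =
      ((S 0 : ℝ) : ℂ) + (α + β) * ((S 1 : ℝ) : ℂ) + α * β * ((S 2 : ℝ) : ℂ) := by
    rw [hS]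
    push_cast
    rw [Finset.mul_sum, Finset.mul_sum, ← Finset.sum_add_distrib, ← Finset.sum_add_distrib]
    refine Finset.sum_congr rfl fun D _ => ?_
    ring
  obtain ⟨R₂, hR₂⟩ : ∃ R₂ : ℂ, R₂ = ((S 0 : ℝ) : ℂ) + (α + β) * ((S 1 : ℝ) : ℂ) +
      α * β * ((S 2 : ℝ) : ℂ) - (rho K : ℂ) * FF α β l := ⟨_, rfl⟩
  have hαβ : ‖α * β‖ ≤ (C₀ / l) ^ 2 := by
    rw [norm_mul, pow_two]
    exact mul_le_mul hα' hβ' (norm_nonneg _) (by positivity)
  have hω' : ‖α + β‖ ≤ 2 * C₀ / l := by rw [hl]; exact hω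
  have hR₂b : ‖R₂‖ ≤ rho K * η / 16 * l := by
    have e : R₂ = (((S 0 : ℝ) : ℂ) - ((rho K * l ^ (0 + 1) / ((0 : ℕ) + 1) : ℝ) : ℂ)) +
        (α + β) * (((S 1 : ℝ) : ℂ) - ((rho K * l ^ (1 + 1) / ((1 : ℕ) + 1) : ℝ) : ℂ)) +
        α * β * (((S 2 : ℝ) : ℂ) - ((rho K * l ^ (2 + 1) / ((2 : ℕ) + 1) : ℝ) : ℂ)) := by
      rw [hR₂]
      unfold FF
      push_cast
      ring
    rw [e]
    have k0 := hSk 0 (by norm_num)
    have k1 := hSk 1 (by norm_num)
    have k2 := hSk 2 (by norm_num)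
    have n1 : ‖(α + β) * (((S 1 : ℝ) : ℂ) - ((rho K * l ^ (1 + 1) / ((1 : ℕ) + 1) : ℝ) : ℂ))‖ ≤
        2 * C₀ / l * (η₂ * l ^ (1 + 1)) := by
      rw [norm_mul]
      exact mul_le_mul hω' k1 (norm_nonneg _) (by positivity)
    have n2 : ‖α * β * (((S 2 : ℝ) : ℂ) - ((rho K * l ^ (2 + 1) / ((2 : ℕ) + 1) : ℝ) : ℂ))‖ ≤
        (C₀ / l) ^ 2 * (η₂ * l ^ (2 + 1)) := by
      rw [norm_mul]
      exact mul_le_mul hαβ k2 (norm_nonneg _) (by positivity)
    refine (norm_add_le _ _).trans (le_trans (add_le_add (norm_add_le _ _) le_rfl) ?_)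
    refine (add_le_add (add_le_add k0 n1) n2).trans (le_of_eq ?_)
    have e2 : η₂ * l ^ (0 + 1) + 2 * C₀ / l * (η₂ * l ^ (1 + 1)) +
        (C₀ / l) ^ 2 * (η₂ * l ^ (2 + 1)) = η₂ * (1 + C₀) ^ 2 * l := by
      field_simp
      ring
    rw [e2, hη₂]
    field_simp
  have hFF : ‖FF α β l‖ ≤ (1 + C₀) ^ 2 * l := by
    unfold FF
    have n1 : ‖(α + β) * (l : ℂ) ^ 2 / 2‖ ≤ 2 * C₀ / l * l ^ 2 / 2 := by
      rw [norm_div, norm_mul, norm_pow, Complex.norm_real, Real.norm_of_nonneg hl0.le]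
      have : ‖(2 : ℂ)‖ = 2 := by simp
      rw [this]
      exact div_le_div_of_nonneg_right (mul_le_mul_of_nonneg_right hω' (by positivity))
        (by norm_num)
    have n2 : ‖α * β * (l : ℂ) ^ 3 / 3‖ ≤ (C₀ / l) ^ 2 * l ^ 3 / 3 := by
      rw [norm_div, norm_mul _ ((l : ℂ) ^ 3), norm_pow, Complex.norm_real,
        Real.norm_of_nonneg hl0.le]
      have : ‖(3 : ℂ)‖ = 3 := by simp
      rw [this]
      exact div_le_div_of_nonneg_right (mul_le_mul_of_nonneg_right hαβ (by positivity))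
        (by norm_num)
    have n0 : ‖(l : ℂ)‖ = l := by rw [Complex.norm_real, Real.norm_of_nonneg hl0.le]
    refine (norm_add_le _ _).trans (le_trans (add_le_add (norm_add_le _ _) le_rfl) ?_)
    rw [n0]
    refine (add_le_add (add_le_add le_rfl n1) n2).trans ?_
    have e2 : l + 2 * C₀ / l * l ^ 2 / 2 + (C₀ / l) ^ 2 * l ^ 3 / 3 =
        (1 + C₀ + C₀ ^ 2 / 3) * l := by
      field_simp
    rw [e2]
    refine mul_le_mul_of_nonneg_right ?_ hl0.le
    nlinarith [sq_nonneg C₀]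
  -- the form
  have hSd : Sd K M α β = (((G)⁻¹ ^ 2 : ℝ) : ℂ) * ((rho K : ℂ) * FF α β l + (R₁ + R₂)) := by
    have h6 := h1 (PrI K) np (PM K M) M α β two_le_np hM1
    have h7 : Sd K M α β = (((GS np (PM K M) M)⁻¹ ^ 2 : ℝ) : ℂ) * ∑ D ∈ DS np (PM K M) M,
        hw np (α + β) D / ((fS np D : ℝ) : ℂ) *
          (Eb np (PM K M) D (M / nS np D) α * Eb np (PM K M) D (M / nS np D) β) := by
      refine Eq.trans ?_ h6
      unfold Sd
      refine Finset.sum_congr rfl fun S _ => Finset.sum_congr rfl fun T _ => ?_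
      have h8 : ∀ (d₁ d₂ : DecidableEq (PrI K)), @Inter.inter (Finset (PrI K))
          (@Finset.instInter _ d₁) S T = @Inter.inter (Finset (PrI K))
          (@Finset.instInter _ d₂) S T := by
        intro d₁ d₂
        rw [Subsingleton.elim d₁ d₂]
      rw [h8]
      rfl
    rw [h7, ← hGdef]
    congr 1
    have h8 : (rho K : ℂ) * FF α β l + (R₁ + R₂) = R₁ + ∑ D ∈ DM K M, (((fS np D)⁻¹ : ℝ) : ℂ) *
      ((1 + α * (lam D : ℂ)) * (1 + β * (lam D : ℂ))) := by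
      rw [hmain, hR₂]
      ring
    rw [h8, hR₁, ← Finset.sum_add_distrib]
    change ∑ D ∈ DM K M, _ = _
    refine Finset.sum_congr rfl fun D _ => ?_
    push_cast
    ring
  have hfin := fin_est (rho K) l G η₃ ((1 + C₀) ^ 2)
    (2 * rho K * A₁ * Cg + rho K * η / 16 * l + rho K * η / 16 * l) (FF α β l) (R₁ + R₂) hρ hl0
    hG hη₃' hFF ((norm_add_le _ _).trans (add_le_add hR₁b hR₂b))
  rw [hSd, ← hl]
  refine hfin.trans ?_
  have g1 : 6 * η₃ / rho K * ((1 + C₀) ^ 2 * l) ≤ η / 4 * l := by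
    have g2 : η₃ ≤ rho K * η / (24 * (1 + C₀) ^ 2) := by rw [hη₃]; exact min_le_right _ _
    calc 6 * η₃ / rho K * ((1 + C₀) ^ 2 * l) ≤
        6 * (rho K * η / (24 * (1 + C₀) ^ 2)) / rho K * ((1 + C₀) ^ 2 * l) := by
          refine mul_le_mul_of_nonneg_right ?_ (by positivity)
          exact div_le_div_of_nonneg_right (by linarith) hρ.le
      _ = η / 4 * l := by field_simp; ring
  have g3 : 4 / rho K * (2 * rho K * A₁ * Cg + rho K * η / 16 * l + rho K * η / 16 * l) =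
      8 * A₁ * Cg + η / 2 * l := by
    field_simp
    ring
  have g4 : 8 * A₁ * Cg ≤ η / 4 * l := by
    rw [div_le_iff₀ hη] at hlbig
    linarith
  rw [g3]
  linarith

end Pool.Agent.H11.CRZ
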